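import Pool.Agent.U554.TU.App

/-!
# Beilinson's conjecture for higher Chow groups: bilinear equations and the cubics `T(x, y, z) = 1`

Let `k` be a finite field and `ℓ` a prime number different from its characteristic. The data
`O b m X`, for the separated schemes `X` of finite type over `k`, stand for the cycle class maps

  `c : CH_b(X, m) ⊗ ℚ_ℓ → H_{m + 2 b}(X̄, ℚ_ℓ(b))`

from Bloch's higher Chow groups to the étale (Borel-Moore) homology, which land in the invariants of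
the Frobenius; for `X` smooth of pure dimension `d` this is the map
`c^{i, j} : CH^j(X, 2 j - i) ⊗ ℚ_ℓ → H^i(X̄, ℚ_ℓ(j))` of the problem, `j = d - b`, `i = 2 j - m`.
`IsRegulator` lists the known properties which are used.

Let `T` be a trilinear form in three blocks `x`, `y`, `z` of `a₁`, `a₂`, `a₃` variables.

* `zeroS T` is the closed subvariety `Z_T` of `𝔸^(a₂ + a₃)` given by the `a₁` bilinear equations
  `∂T/∂x_i (y, z) = 0`;
* `hypS T` is the smooth affine hypersurface `Y_T : T(x, y, z) = 1` of dimension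
  `d = a₁ + a₂ + a₃ - 1`; `O (d - j) m (hypS T)` is the map
  `CH^j(Y_T, m) ⊗ ℚ_ℓ → H^{2 j - m}(Ȳ_T, ℚ_ℓ(j))`.
-/

set_option autoImplicit false

open CategoryTheory AlgebraicGeometry MvPolynomial Pool.Agent.Y116.UV Pool.Agent.U554.TU

universe w

namespace Pool.Agent.Results.MP_b52861_ag.BilinearEquations

variable {K : Type} [Field K]

/-- The map `c` is injective. -/
def Inj (X : Reg.{w} K Unit) : Prop := Function.Injective X.c

/-- The known properties of the regulators over a finite field `k`: the properties `IsTheory` (long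
exact sequences, homotopy invariance, ...; see `Pool.Agent.U554.TU.Reg`) and

* `point`: for `b < 0` the groups `CH_b(Spec k, m) ⊗ ℚ = CH^{-b}(Spec k, m) ⊗ ℚ` are zero (Quillen: the
  groups `K_m(k)`, `m > 0`, are finite);
* `torsor`: homotopy invariance for affine bundles;
* `jouanolou`: smooth separated schemes of finite type have affine bundles with affine total space
  (Jouanolou, Thomason);
* `boundary`: `CH_b(X, m)` is a direct factor of `CH_b(X × 𝔾_m, m + 1)`, with the étale homology (cup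
  product with the coordinate, boundary at `0`). -/
structure IsRegulator {k : Type} [Field k] (O : ℤ → ℤ → Sch k → Reg.{w} K Unit) : Prop
    extends IsTheory O where
  point : ∀ b m : ℤ, b < 0 → Subsingleton (O b m (aff k k)).A
  torsor : BundleInvariant O
  jouanolou : ∀ X : Sch k, FT True X → Smooth X.hom → HasAffineBundle X
  boundary : ∀ (A : Type) [CommRing A] [Algebra k A] [Algebra.FiniteType k A] (b m : ℤ),
    Reg.Factor (O b m (aff k A)) (O b (m + 1) (aff k (LaurentPolynomial A)))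

/-- The closed subvariety `∂T/∂x_i (y, z) = 0`, `1 ≤ i ≤ a₁`, of the affine space with the coordinates
`y`, `z`. -/
noncomputable def zeroS {k : Type} [Field k] {a₁ a₂ a₃ : ℕ} (T : Fin a₁ → Fin a₂ → Fin a₃ → k) :
    Sch k :=
  aff k (MvPolynomial (Fin a₂ ⊕ Fin a₃) k ⧸
    Ideal.span (Set.range fun i => bil (Fin a₂) (Fin a₃) (T i)))

lemma inherited : Inherited (Inj (K := K)) := by
  rintro X Y ⟨s, r, h1, -⟩ hY
  refine (injective_iff_map_eq_zero _).mpr fun a ha => ?_
  have h3 : Y.c (s.f a) = 0 := by rw [← s.comm, ha, map_zero]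
  have h4 : s.f a = 0 := (injective_iff_map_eq_zero _).mp hY _ h3
  rw [← h1 a, h4, map_zero]

section

variable {k : Type} [Field k] {O : ℤ → ℤ → Sch k → Reg.{w} K Unit}

lemma inj_bdry (hO : IsTheory O) {Z X U : Sch k} (i : Z ⟶ X) (j : U ⟶ X) (hX : FT True X)
    (ht : IsTriple i j) (b m : ℤ) (hA : Subsingleton (O b (m + 1) X).A) (hZ : Inj (O b m Z)) :
    Inj (O b (m + 1) U) := by
  obtain ⟨α, β, δ, e1, e2, e3⟩ := hO.les i j hX ht b
  refine (injective_iff_map_eq_zero _).mpr fun a ha => ?_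
  have h3 : (O b m Z).c ((δ m).f a) = 0 := by rw [← (δ m).comm, ha, map_zero]
  have h4 : (δ m).f a = 0 := (injective_iff_map_eq_zero _).mp hZ _ h3
  obtain ⟨y, rfl⟩ := ((e2 m).1 a).mp h4
  rw [Subsingleton.elim y 0, map_zero]

/-- The bilinear equations and the hypersurface. -/
lemma zero_hyp (hO : IsRegulator O) {a₁ a₂ a₃ : ℕ} (T : Fin a₁ → Fin a₂ → Fin a₃ → k) (m : ℤ)
    (h : ∀ b : ℤ, Inj (O b m (zeroS T))) (j : ℕ) (hj : 1 ≤ j) :
    Inj (O (a₁ + a₂ + a₃ - 1 - j) (m + 1) (hypS T)) := by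
  have hB := hO.toIsTheory
  let f : Fin a₁ → MvPolynomial (Fin a₂ ⊕ Fin a₃) k := fun i => bil (Fin a₂) (Fin a₃) (T i)
  have e : MvPolynomial (Fin a₂ ⊕ Fin a₃) k ≃ₐ[k] MvPolynomial (Fin (a₂ + a₃)) k :=
    renameEquiv k finSumFinEquiv
  have h1 : Subsingleton (O (a₂ + a₃ - j) (m + 1) (aff k (MvPolynomial (Fin a₂ ⊕ Fin a₃) k))).A := by
    obtain ⟨u, hu, -⟩ := hB.alg e (a₂ + a₃ - j) (m + 1)
    obtain ⟨v, hv, -⟩ := hO.space k (a₂ + a₃) (-j) (m + 1)
    have := hO.point (-j) (m + 1) (by omega)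
    have h2 : Subsingleton (O (-j + ((a₂ + a₃ : ℕ) : ℤ)) (m + 1)
        (aff k (MvPolynomial (Fin (a₂ + a₃)) k))).A := hv.2.subsingleton
    rw [show (-j + ((a₂ + a₃ : ℕ) : ℤ) : ℤ) = a₂ + a₃ - j from by push_cast; ring] at h2
    exact hu.1.subsingleton
  have h2 := inj_bdry hB _ _ (ft_aff True) (triple_ne f) (a₂ + a₃ - j) m h1 (h _)
  have h3 := (inherited (K := K)).iff (hyp_bundle hB T (a₂ + a₃ - j) (m + 1))
  rw [show (a₂ + a₃ - j + a₁ - 1 : ℤ) = a₁ + a₂ + a₃ - 1 - j from by ring] at h3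
  exact h3.mp h2

/-- Injectivity for the affine schemes passes to the lower degrees. -/
lemma descend (hO : IsRegulator O) (d : ℕ) (m : ℤ)
    (h : ∀ (A : Type) [CommRing A] [Algebra k A] [Algebra.FiniteType k A] (b : ℤ),
      Inj (O b (m + d) (aff k A))) :
    ∀ (A : Type) [CommRing A] [Algebra k A] [Algebra.FiniteType k A] (b : ℤ),
      Inj (O b m (aff k A)) := by
  induction d with
  | zero => simpa using h
  | succ d ih =>
    apply ih
    intro A _ _ _ b
    have h2 := hO.boundary A b (m + d)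
    have h3 : Algebra.FiniteType k (LaurentPolynomial A) := ft_laurent A
    have h4 := h (LaurentPolynomial A) b
    rw [show m + ((d + 1 : ℕ) : ℤ) = m + d + 1 from by push_cast; ring] at h4
    exact inherited _ _ h2 h4

/-- From an unbounded set of degrees for the affine schemes to all degrees. -/
lemma all_inj (hO : IsRegulator O) (S : Set ℤ) (hS : ∀ N : ℤ, ∃ n ∈ S, N ≤ n)
    (h : ∀ n ∈ S, ∀ (A : Type) [CommRing A] [Algebra k A] [Algebra.FiniteType k A] (b : ℤ),
      Inj (O b (n - 1) (aff k A))) (X : Sch k) (hX : FT True X) (hX' : HasAffineBundle X)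
    (b m : ℤ) : Inj (O b m X) := by
  refine bundle_of_affine hO.torsor inherited m ?_ X hX hX' b
  obtain ⟨n, hn, hm⟩ := hS (m + 1)
  exact descend hO (n - 1 - m).toNat m fun A _ _ _ b => by
    rw [show m + ((n - 1 - m).toNat : ℤ) = n - 1 from by omega]
    exact h n hn A b

end

/-- **Beilinson's conjecture, bilinear equations, and the cubic hypersurfaces `T(x, y, z) = 1`.** Let
`k` be a finite field, `ℓ` a prime number, and let `O b m X` have the known properties of the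
regulators `CH_b(X, m) ⊗ ℚ_ℓ → H_{m + 2 b}(X̄, ℚ_ℓ(b))` for the separated schemes `X` of finite type
over `k`. Let `S` be a set of integers which is not bounded above. The following assertions are
equivalent:
* (Q1 for `k` and `ℓ`) the regulators are injective for all smooth `X` and all `b`, `m`;
* the same for all separated schemes `X` of finite type over `k` which have an affine bundle with
  affine total space (all quasi-projective and all smooth `X`), and all `b`, `m`;
* the regulators are injective for all `b`, `m` and all closed subvarieties `Z_T` of `𝔸^(a₂ + a₃)`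
  which are given by a finite number of bilinear equations in `a₂ + a₃` variables;
* the maps `CH^j(Y_T, n) ⊗ ℚ_ℓ → H^{2 j - n}(Ȳ_T, ℚ_ℓ(j))` are injective for all trilinear forms `T`,
  all `j ≥ 1` and all `n` in `S`.
If `k` is a prime field, the bilinear equations with coefficients `0` and `1` are sufficient in the
third assertion, and the hypersurfaces `∑_{(i, j, k) ∈ H} x_i y_j z_k = 1`, `H` a finite set of triples,
in the last one. -/
theorem result (k : Type) [Field k] [Finite k] (ℓ : ℕ) [Fact ℓ.Prime]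
    (O : ℤ → ℤ → Sch k → Reg.{w} ℚ_[ℓ] Unit) (hO : IsRegulator O) (S : Set ℤ)
    (hS : ∀ N : ℤ, ∃ n ∈ S, N ≤ n) :
    List.TFAE [
      ∀ X : Sch k, FT True X → Smooth X.hom → ∀ b m : ℤ, Inj (O b m X),
      ∀ X : Sch k, FT True X → HasAffineBundle X → ∀ b m : ℤ, Inj (O b m X),
      ∀ (a₁ a₂ a₃ : ℕ) (T : Fin a₁ → Fin a₂ → Fin a₃ → k) (b m : ℤ), Inj (O b m (zeroS T)),
      ∀ (a₁ a₂ a₃ : ℕ) (T : Fin a₁ → Fin a₂ → Fin a₃ → k) (j : ℕ), 1 ≤ j → ∀ n ∈ S,
        Inj (O (a₁ + a₂ + a₃ - 1 - j) n (hypS T))] ∧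
    (Function.Surjective (Int.cast : ℤ → k) →
      List.TFAE [
        ∀ X : Sch k, FT True X → Smooth X.hom → ∀ b m : ℤ, Inj (O b m X),
        ∀ (a₁ a₂ a₃ : ℕ) (T : Fin a₁ → Fin a₂ → Fin a₃ → k), (∀ i j l, T i j l = 0 ∨ T i j l = 1) →
          ∀ b m : ℤ, Inj (O b m (zeroS T)),
        ∀ (a₁ a₂ a₃ : ℕ) (H : Finset (Fin a₁ × Fin a₂ × Fin a₃)) (j : ℕ), 1 ≤ j → ∀ n ∈ S,
          Inj (O (a₁ + a₂ + a₃ - 1 - j) n (tripS k H))]) := by
  have hT := hO.toIsTheory
  have hsm : ∀ (a₁ a₂ a₃ : ℕ) (T : Fin a₁ → Fin a₂ → Fin a₃ → k), Smooth (hypS T).hom := by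
    intro a₁ a₂ a₃ T
    change Smooth (Spec.map (CommRingCat.ofHom (algebraMap k (Hyp T))))
    rw [HasRingHomProperty.Spec_iff (P := @Smooth)]
    exact RingHom.smooth_algebraMap.mpr (hyp_smooth T)
  have hy : ∀ (C : Set k), 0 ∈ C → 1 ∈ C → Presents C →
      (∀ (a₁ a₂ a₃ : ℕ) (T : Fin a₁ → Fin a₂ → Fin a₃ → k), (∀ i j l, T i j l ∈ C) →
        ∀ j : ℕ, 1 ≤ j → ∀ n ∈ S, Inj (O (a₁ + a₂ + a₃ - 1 - j) n (hypS T))) →
      ∀ X : Sch k, FT True X → HasAffineBundle X → ∀ b m : ℤ, Inj (O b m X) := by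
    intro C h0 h1 hC h X hX hX' b m
    refine all_inj hO S hS (fun n hn A _ _ _ b => ?_) X hX hX' b m
    refine affine_of_hyp hT inherited h0 h1 hC (n - 1) (fun a₁ a₂ a₃ T hT' j hj => ?_) A b
    rw [sub_add_cancel]
    exact h a₁ a₂ a₃ T hT' j hj n hn
  have hz : ∀ (C : Set k), (∀ (a₁ a₂ a₃ : ℕ) (T : Fin a₁ → Fin a₂ → Fin a₃ → k),
      (∀ i j l, T i j l ∈ C) → ∀ b m : ℤ, Inj (O b m (zeroS T))) →
      (∀ (a₁ a₂ a₃ : ℕ) (T : Fin a₁ → Fin a₂ → Fin a₃ → k), (∀ i j l, T i j l ∈ C) →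
        ∀ j : ℕ, 1 ≤ j → ∀ n ∈ S, Inj (O (a₁ + a₂ + a₃ - 1 - j) n (hypS T))) := by
    intro C h a₁ a₂ a₃ T hT' j hj n _
    have h2 := zero_hyp hO T (n - 1) (fun b => h a₁ a₂ a₃ T hT' b (n - 1)) j hj
    rwa [sub_add_cancel] at h2
  refine ⟨?_, ?_⟩
  · tfae_have 2 → 1 := fun h X h1 h2 => h X h1 (hO.jouanolou X h1 h2)
    tfae_have 1 → 4 := fun h a₁ a₂ a₃ T j _ n _ => h _ (ft_aff True) (hsm _ _ _ T) _ _
    tfae_have 2 → 3 := fun h a₁ a₂ a₃ T b m => h _ (ft_aff True) (has_aff _) b m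
    tfae_have 3 → 4 := fun h a₁ a₂ a₃ T j hj =>
      hz Set.univ (fun a₁ a₂ a₃ T _ b m => h a₁ a₂ a₃ T b m) a₁ a₂ a₃ T (fun _ _ _ => trivial) j hj
    tfae_have 4 → 2 := fun h =>
      hy Set.univ trivial trivial presents_univ fun a₁ a₂ a₃ T _ j hj => h a₁ a₂ a₃ T j hj
    tfae_finish
  · intro hk
    have hy' := hy {0, 1} (Or.inl rfl) (Or.inr rfl) (presents_zero_one hk)
    tfae_have 1 → 3 := by
      intro h a₁ a₂ a₃ H j _ n _
      obtain ⟨T, -, hH⟩ := trip_hyp (R := k) H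
      rw [← hH]
      exact h _ (ft_aff True) (hsm _ _ _ T) _ _
    tfae_have 3 → 2 := by
      intro h a₁ a₂ a₃ T _ b m
      refine hy' (fun a₁ a₂ a₃ T hT' j hj => ?_) _ (ft_aff True) (has_aff _) b m
      obtain ⟨H, hH⟩ := hyp_zero_one T hT'
      rw [hH]
      exact h a₁ a₂ a₃ H j hj
    tfae_have 2 → 1 := fun h X h1 h2 =>
      hy' (hz {0, 1} fun a₁ a₂ a₃ T hT' b m => h a₁ a₂ a₃ T hT' b m) X h1 (hO.jouanolou X h1 h2)
    tfae_finish

end Pool.Agent.Results.MP_b52861_ag.BilinearEquations
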