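import Mathlib
import Pool.Agent.U191.GSHalf
import Pool.Agent.TH170.GS.TB
import Pool.Agent.X303.RegDefs

/-!
# Beilinson's conjecture for the higher Chow groups of the smooth varieties generated by the abelian
varieties with one half of all slope types of every CM field of degree `2 r ^ k`

Over an algebraic closure of the field with `p` elements each abelian variety is isogenous to the
reduction of an abelian variety of CM type (Honda, Tate). So an abelian variety over the field
with `p ^ a` elements is modelled by `RedAV`: a finite product of CM types `(E i, Φ i)` with Weil
numbers `π i ∈ E i` that satisfy the formula of Shimura and Taniyama; its cohomology of degree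
`n`, with coefficients in an algebraically closed field `Ω`, consists of the alternating `n`-forms
on `Ω ⊗ H_1`, on which the Frobenius endomorphism acts by `π`. We fix an isomorphism `ν` of the
algebraic closure of `ℚ_p` with `ℂ`; it defines a `p`-adic valuation of `ℂ`, with the value one at
`p`.

Let `K i` (`i` in a finite set) be CM fields of degree `2 g i` which are pairwise independent: for
`i ≠ k` and all complex embeddings `φ` of `K i` and `ψ` of `K k` some automorphism of `ℂ` is the
identity on `φ (K i)` and the complex conjugation on `ψ (K k)` (this is no condition if there is
only one field). Let `M i` be a function with integral values on the complex embeddings of `K i`,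
invariant under complex conjugation (the weights). A CM type `Φ i` of `K i` (a choice of one
element out of each complex conjugate pair of embeddings; there are `2 ^ g i` types), `M i` and a
real number `κ i ≠ 0` prescribe the slopes `(a + κ M) / 2` (at the embeddings in `Φ i`) and `(a -
κ M) / 2` (outside of `Φ i`) of a Weil number for `p ^ a` in `K i`. If `p` splits completely in `K
i` then, by Honda and Tate, all rational slopes between `0` and `a` that are symmetric in this way
occur for abelian varieties over finite fields. The case `M = 1`, `κ = a` is the ordinary case.

For a family of types `Φ i` let `𝒞` (`OfTypes`) be the class of the abelian varieties `Y` each of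
whose factors is supersingular or has a Frobenius endomorphism some power of which is, for some `i`,
a Weil number in `K i` with the slopes prescribed by `Φ i`, `M i` and some real number `κ i ≠ 0`
(which depends only on `Y` and `i`). So `Y` is, over an algebraic closure, isogenous to a product of
powers of one abelian variety for each `i`, with the given slopes, and of a supersingular one. The
class `𝒞` contains all products of powers of its members, and the products of its members with
supersingular abelian varieties.

`Homology Ω V` are data of motivic homology `M X i j = H_i^M(X, ℚ(j)) = CH_j(X, i - 2 j) ⊗ ℚ` and
of `ℓ`-adic homology `E X i j = H_i(X, ℚ_ℓ(j))` (coefficients extended to `Ω`) of schemes `X` of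
finite type over a finite field (the elements of `V`), with the Frobenius and the regulator. For a
family of types let `𝒢` be the smallest class (`Generated`) of such schemes that contains those
with the homology groups of abelian varieties in `𝒞` (`IsAbelianOfTypes`), that is closed under
direct summands of finite sums of twists of motives, and that contains all of a closed subscheme
`Z` of `X`, `X` and `X ∖ Z` if it contains two of them. It contains for instance all products of
varieties in `𝒞`, all products of curves with Jacobians in `𝒞` and of open subsets of such curves,
symmetric powers of them, and the singular and the open varieties with a stratification by such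
varieties.

**The property of the slope types.** `Q` (`Holds`) is the following: let `X` be a smooth variety of
pure dimension `d` in `𝒢` (the theorem is true for all members). Then
`H^i_M(X, ℚ(j)) = H_(2 d - i)^M(X, ℚ(d - j)) = M X (2 d - i) (d - j)` and the same for `ℓ`-adic
cohomology. **For all `i` and `j` the map `c^(i, j)` is injective**: elements of `H^i_M(X, ℚ(j))`
which are linearly independent over `ℚ` have images in `H^i(X, ℚ_ℓ(j)) ⊗ Ω` which are linearly
independent over `Ω`.

Properties of the theory of cycles that are used for the abelian varieties (`IsChow`,
`IsMotivic`): Poincaré duality, the formal properties of correspondences, the nilpotence of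
homologically trivial correspondences (Kimura), the operation of the Frobenius endomorphism on
higher Chow groups, the vanishing of the higher rational `K`-groups of a finite field (Quillen),
and the algebraicity of the classes in `Alg` (of which only products of classes of divisors matter
here, theorem of Tate). The passage from the Tate conjecture to all degrees and to the class
`Generated` is due to Soulé, Geisser, Kahn and Jannsen.

**The theorem.** Let `K` be **any CM field of degree `2 g = 2 r ^ k`**, `r` a prime number, of
degree at least `16` if `r = 2`. Nothing is assumed about the Galois group of the normal closure of
`K`, and nothing about the subfields of `K`.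

* (`HalfOfAll`) For all weights `M` (odd if `r = 2`; if `r` is odd then `r` may divide some, but not
  all of them) the property `Q` is true for **at least one half of all `2 ^ g` types** of `K`.
* (`MostWithWeightsOne`) For the weights `M = 1` (for instance in the ordinary case) it is true for
  at least `(1 - 1 / r) 2 ^ g` of the types.
* (`OneOfTwo`) There is a set `B` of embeddings of `K`, stable under complex conjugation, such that
  for **every** type `Φ` it is true for `Φ` or for the symmetric difference of `Φ` and `B`.
* (`SixteenPercent`) There is a number `g₀` such that for every CM field that is **abelian over
  `ℚ`**, of any degree `2 g ≥ 2 g₀`, and all odd weights it is true for at least 16 percent of all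
  `2 ^ g` types; again nothing is assumed on the subfields.

All this is proved more generally for finitely many pairwise independent fields `K i`; the
proportions are then multiplied.

The earlier result for this problem (AlmostAllSlopeTypes) bounds the number of the exceptional
types by `2 ^ g ρ (K)`; the number `ρ (K)` can be larger than one if `K` has many CM subfields,
for instance for abelian fields of 2-power degree, and then the bound says nothing. The proof
joins two parts of the library of the starting files: the theorem that one half of all types have
no relations (`Pool.Agent.Q29.EP`, written for the conjecture of Parshin, MP_de59b4_ag), and the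
consequences of elementary relations between the Frobenius eigenvalues for this problem.
-/

set_option autoImplicit false

namespace Pool.Agent.Results.MP_b52861_ag.HalfOfAllTypes

open NumberField Module Pool.Agent.H204R3.CM Pool.Agent.H977R3.CM Pool.Agent.TH170 Pool.Agent.Q29.EP

open Pool.Agent.W495.TA Pool.Agent.W495.FM Pool.Agent.X303.TBDual

/-- The maps `c^(i, j)` are injective for all `i` and `j` and all smooth `X` of pure dimension `d`
generated by abelian varieties with the slope types `Φ`. -/
def Holds {p : ℕ} [Fact p.Prime] (ν : PadicAlgCl p ≃+* ℂ) {I : Type} (K : I → Type)
    [∀ i, Field (K i)] (M : ∀ i, (K i →+* ℂ) → ℤ) (Φ : ∀ i, Set (K i →+* ℂ)) : Prop :=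
  ∀ (Ω : Type) [Field Ω] [IsAlgClosed Ω] [CharZero Ω] (V : Type) (T : Homology Ω V), IsHomology T
  → ∀ X : V, Generated T (GS.IsAbelianOfTypes ν K M Φ T) X → ∀ (d i j : ℤ), RegInjective T X (2 *
  d - i) (d - j)

/-- The property of the slope types `Φ i` with the weights `M i`. -/
def Q : TypeProperty := fun _ _ ν _ _ K _ _ _ M Φ => Holds ν K M Φ

/-- **The maps `c^(i, j)` are injective for all `i` and `j` and all smooth `X` generated by the abelian
varieties over finite fields with one half of all slope types of every CM field of degree
`2 r ^ k`.** -/
theorem result : HalfOfAll Q ∧ MostWithWeightsOne Q ∧ OneOfTwo Q ∧ SixteenPercent Q := by
  have h : WithoutRelations Q := Pool.Agent.U191.GSHalf.withoutRelations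
    fun _ _ _ _ _ _ _ _ _ _ _ h _ _ _ _ _ _ hT _ hX _ _ _ => (GS.tb_types h hT hX _ _).2.1
  exact ⟨halfOfAll h, mostWithWeightsOne h, oneOfTwo h, sixteenPercent h⟩

end Pool.Agent.Results.MP_b52861_ag.HalfOfAllTypes
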