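import Pool.Agent.U926.SF.Reg

/-!
# Beilinson's conjecture for hypersurfaces `g_0 + ⋯ + g_r = 0` over finite fields

Let `F` be a finite field, and let `g_0, …, g_r` be nonsingular forms of degree `d ≥ 2` in separate
sets of variables over the algebraic closure of `F`, `d` prime to the characteristic:

* `d = 3`: cubic forms in at most three variables each;
* `d = 4`: quartic forms in at most two variables each;
* `d ∣ 24`, `d ≠ 24` (`d = 2, 3, 4, 6, 8, 12`): forms in one variable each (Fermat hypersurfaces).

There is no restriction on the number of the forms, so the dimension of the hypersurface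
`X : g_0 + ⋯ + g_r = 0` is arbitrary.

**Theorem.** Let `X₀` be a variety over a finite extension of `F` which becomes isomorphic to `X` over
the algebraic closure. Then the cycle class maps `CH^j(X₀, n) ⊗ ℚ_ℓ → H^(2 j - n)(X, ℚ_ℓ(j))` are
injective for all `j` and `n`: the groups `CH^j(X₀, n)` are torsion groups for `n ≥ 1`, and even
`CH^j(X) ⊗ ℚ_ℓ → H^(2 j)(X, ℚ_ℓ(j))` is injective (`CH^j(X)`, the Chow group over the algebraic closure,
contains `CH^j(X₀)` up to torsion). The same is true for all products of such
hypersurfaces (of any degrees) with elliptic curves and all other varieties which are built from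
products of elliptic curves, and for every variety which is built from such products: for example for
the coverings `w ^ m = F(x)` of the projective space, `m` a divisor of `d`, for quotients and images
under generically finite morphisms, for the blow-ups of such products in such products, and for
projective bundles over them.

Known: products of elliptic curves (Kahn, Geisser, by the theorem of Spiess).

The known theorems which are used:

* the formal properties of the Chow groups (`IsChowProj`), of the Weil cohomology (`IsWeilProj`) and of
  the higher Chow groups (`IsHigherChow`);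
* `hT`, the theorem of Katsura and Shioda: `f(x) + g(y) = 0` is dominated by the product of
  `f(x) + z ^ d = 0` and `g(y) + w ^ d = 0`, blown up in the product of `f(x) = 0` and `g(y) = 0`;
* `hM`: the motives of plane cubic curves, of cubic surfaces, of the plane curves
  `f(x, y) + z ^ 4 = 0` and of the Fermat curves of the degrees `d ∣ 24`, `d ≠ 24`, are direct
  summands of motives of products of elliptic curves;
* `hE`: the conjecture for products of elliptic curves (Spiess, Kahn, Geisser).
-/

universe u v w

namespace Pool.Agent.Results.MP_b52861_ag.SumsOfForms

open Pool.Agent.H914 Pool.Agent.W492.BB Pool.Agent.TH133 Pool.Agent.U926.SF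

/-- **Beilinson's conjecture** for the hypersurfaces `g_0 + ⋯ + g_r = 0` with equations in separate sets of
variables, for their products with varieties built from products of elliptic curves, and for all
varieties which are built from these products. -/
theorem result {F : Type u} [Field F] [Finite F] {𝒱 : VarClass (AlgebraicClosure F)}
    {C : TheoryData.{u, v, 0} 𝒱 ℚ} [IsChowProj C] {K : Type w} [Field K] [CharZero K]
    {H : WeilTheoryData.{u, v, w} C K} [IsWeilProj H] (T : Hypersurfaces 𝒱)
    (hT : ∀ d : ℕ, 2 ≤ d → (d : AlgebraicClosure F) ≠ 0 → IsKatsuraShioda C T d)
    (hM : HaveEllipticMotives C T) (W : ModelGroups F 𝒱 (ℤ × ℕ)) (hW : IsHigherChow C W)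
    (hE : ∀ Y : 𝒱.Obj, IsEllipticProduct Y → HigherTorsion W Y ∧ CycleMapInjective H Y)
    (X : 𝒱.Obj) (hX : IsBuiltFrom C (IsEllipticSum C T) X) :
    HigherTorsion W X ∧ CycleMapInjective H X := by
  have h : IsBuiltFrom C IsEllipticProduct X := hX.trans fun _ hY => hY.isBuiltFrom hT hM
  exact ⟨.of_isBuiltFrom hW (fun Y hY => (hE Y hY).1) h,
    .of_isBuiltFrom (fun Y hY => (hE Y hY).2) h⟩

end Pool.Agent.Results.MP_b52861_ag.SumsOfForms
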